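import Pool.Agent.SelGames.Games

namespace Pool.Agent.Results.MP_549d70_gt.GOneEquivalence

open Pool.Agent.SelGames

universe u

/-- For every topological space `X`: `X` satisfies `S_1(𝒟_Ω, 𝒟_Ω)` if and only if ONE has no
winning strategy in the game `G_1(𝒟_Ω, 𝒟_Ω)` on `X`. -/
theorem result (X : Type u) [TopologicalSpace X] :
    S1 (DOmega X) (DOmega X) ↔ ¬ OneHasWinningStrategyG1 (DOmega X) (DOmega X) :=
  ⟨g1_of_s1, s1_of_g1⟩

end Pool.Agent.Results.MP_549d70_gt.GOneEquivalence
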